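import Pool.Agent.Y884.OM.E3

set_option autoImplicit false

/-!
Project OM (owner helper746), job OM-E: zeros near the critical line against the resonator.
Part 4: the theorem.
-/

namespace Pool.Agent.Y884.OM

open Finset Filter Topology MeasureTheory Pool.Agent.Y746.OM
open H370 (zset mult NN Zf zz)
open scoped ENNReal

/-- the zeros of the statement -/
noncomputable def ZZ (T δ : ℝ) : Finset ℂ :=
  (Zf riemannZeta T (2 * T)).filter (fun s => δ ≤ s.re - 1 / 2 ∧ s.re - 1 / 2 ≤ 1 / 32)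

/-- discrete mean over the zeros -/
lemma discrete (h3 : S_G3) : ∃ c C T0 : ℝ, 0 < c ∧ c ≤ 1 / 100 ∧ 0 < C ∧ 10 ≤ T0 ∧
    ∀ T : ℝ, T0 ≤ T → ∀ δ : ℝ, 2 / Real.log T ≤ δ → δ ≤ 1 / 32 →
    ∀ (P : Finset ℕ) (r : ℕ → ℝ) (Q : ℝ) (y : Finset ℕ → ℂ),
    (∀ p ∈ P, p.Prime) → (∀ p ∈ P, 0 ≤ r p) → 1 ≤ Q → Q ≤ T ^ c →
    (∀ S ∈ FS P Q, ‖y S‖ ≤ ∏ p ∈ S, r p) →
    ∑ s ∈ ZZ T δ, (mult riemannZeta s : ℝ) * ‖RS P Q y ((s.im : ℂ) * Complex.I)‖ ^ 2 ≤
    C * T * (Real.log T) ^ C * T ^ (-(c * δ)) * EP P r := by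
  obtain ⟨η, c, C, T0, hη, hη1, hc, hc1, hC, hT0, h⟩ := h3
  obtain ⟨C1, hC1, hZ⟩ := H370.Zg_le H370.good_zeta
  set C2 : ℝ := Real.exp (1 / 2) * C1 * C * (1 + 4 * Real.exp 1 ^ 2) with hC2
  have hC20 : 0 < C2 := by positivity
  refine ⟨c / 2, C2 + C + 3, max T0 (Real.exp 32), by positivity, by linarith, by positivity,
    hT0.trans (le_max_left _ _), fun T hT δ hδ hδ1 P r Q y hP hr hQ1 hQ hy => ?_⟩
  have hTT : T0 ≤ T := (le_max_left _ _).trans hT
  have hT10 : 10 ≤ T := hT0.trans hTT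
  have hT00 : 0 < T := by linarith
  set L := Real.log T with hL
  have hL32 : 32 ≤ L := by
    rw [hL, Real.le_log_iff_exp_le hT00]
    exact (le_max_right _ _).trans hT
  have hL0 : 0 < L := by linarith
  have hδ0 : 0 < δ := lt_of_lt_of_le (by positivity) hδ
  have hQc : Q ≤ T ^ c := by
    refine hQ.trans ?_
    exact Real.rpow_le_rpow_of_exponent_le (by linarith) (by linarith)
  have hlQ : Real.log Q ≤ L := by
    have h1 : Real.log Q ≤ Real.log (T ^ c) := Real.log_le_log (by linarith) hQc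
    rw [Real.log_rpow hT00, ← hL] at h1
    have : c * L ≤ 1 * L := by gcongr; linarith
    linarith
  have hEP : 0 ≤ EP P r := by
    unfold EP
    refine Finset.prod_nonneg fun p hp => ?_
    have := hr p hp
    positivity
  set B : ℝ := C * T * L ^ C * T ^ (-(c * (δ / 2))) * EP P r with hB
  have hB0 : 0 ≤ B := by positivity
  set N := ⌊T ^ η⌋₊ with hN
  have hsum := sum_zeros (Q := Q) hP y (T := T) (δ := δ) (L := L) (by linarith) hL32 hδ N
    (K := C1 * L) (fun t => hZ T (by linarith) T (2 * T) le_rfl le_rfl t)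
  have harea : ∫⁻ x in Rc T δ, ENNReal.ofReal (‖FF N x‖ ^ 2) * GG P Q y L x.im ≤
      ENNReal.ofReal (B * (1 + 4 * Real.exp 1 ^ 2)) := by
    refine area _ hδ0.le fun a ha => ?_
    have hrow := row (Q := Q) hP hr y hy N (T := T) (a := a) (B := B) (L := L) hT00 hL0 hlQ hB0 ?_
    · refine le_trans (le_of_eq ?_) hrow
      refine lintegral_congr fun v => ?_
      congr 2
      simp
    · intro K y' hK hy'
      refine line hP y' N hT00 ?_
      have h4 := h T hTT (a - 1 / 2) ?_ ?_ P r Q K y' hP hr hQ1 hQc hK hy'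
      · have e1 : (1 / 2 + (a - 1 / 2) : ℝ) = a := by ring
        rw [e1] at h4
        refine h4.trans ?_
        have h5 : T ^ (-(c * (a - 1 / 2))) ≤ T ^ (-(c * (δ / 2))) := by
          apply Real.rpow_le_rpow_of_exponent_le (by linarith)
          have : δ / 2 ≤ a - 1 / 2 := by linarith [ha.1]
          nlinarith
        calc C * T * Real.log T ^ C * T ^ (-(c * (a - 1 / 2))) * (K ^ 2 * EP P r) ≤
            C * T * Real.log T ^ C * T ^ (-(c * (δ / 2))) * (K ^ 2 * EP P r) := by gcongr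
          _ = B * K ^ 2 := by rw [hB]; ring
      · have e2 : 1 / Real.log T ≤ δ / 2 := by
          have : 1 / L = 2 / L / 2 := by ring
          rw [← hL, this]; gcongr
        linarith [ha.1]
      · linarith [ha.2]
  have hmain : Real.pi * (1 / L) ^ 2 * ∑ s ∈ ZZ T δ, (mult riemannZeta s : ℝ) *
      ‖RS P Q y ((s.im : ℂ) * Complex.I)‖ ^ 2 ≤
      Real.exp (1 / 2) * (C1 * L) * (B * (1 + 4 * Real.exp 1 ^ 2)) := by
    have h6 := hsum.trans (mul_le_mul' le_rfl harea)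
    rw [← ENNReal.ofReal_mul (by positivity)] at h6
    exact (ENNReal.ofReal_le_ofReal_iff (by positivity)).1 h6
  have hpi : 1 ≤ Real.pi := by linarith [Real.pi_gt_three]
  set A := ∑ s ∈ ZZ T δ, (mult riemannZeta s : ℝ) *
      ‖RS P Q y ((s.im : ℂ) * Complex.I)‖ ^ 2 with hA
  have hA0 : 0 ≤ A := Finset.sum_nonneg fun s _ => by positivity
  have h7 : A ≤ L ^ 2 * (Real.exp (1 / 2) * (C1 * L) * (B * (1 + 4 * Real.exp 1 ^ 2))) := by
    calc A = 1 * (L ^ 2 * ((1 / L) ^ 2 * A)) := by field_simp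
      _ ≤ Real.pi * (L ^ 2 * ((1 / L) ^ 2 * A)) := by gcongr
      _ = L ^ 2 * (Real.pi * (1 / L) ^ 2 * A) := by ring
      _ ≤ _ := by gcongr
  refine h7.trans ?_
  have hL3 : L ^ (2 : ℕ) * L * L ^ C = L ^ (C + 3) := by
    rw [Real.rpow_add hL0, show (3 : ℝ) = ((3 : ℕ) : ℝ) by norm_num, Real.rpow_natCast]
    ring
  have h8 : L ^ (C + 3) ≤ L ^ (C2 + C + 3) :=
    Real.rpow_le_rpow_of_exponent_le (by linarith) (by linarith)
  have h9 : -(c * (δ / 2)) = -(c / 2 * δ) := by ring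
  calc L ^ 2 * (Real.exp (1 / 2) * (C1 * L) * (B * (1 + 4 * Real.exp 1 ^ 2))) =
      C2 * T * (L ^ (2 : ℕ) * L * L ^ C) * T ^ (-(c * (δ / 2))) * EP P r := by
        rw [hB, hC2]; ring
    _ = C2 * T * L ^ (C + 3) * T ^ (-(c / 2 * δ)) * EP P r := by rw [hL3, h9]
    _ ≤ (C2 + C + 3) * T * L ^ (C2 + C + 3) * T ^ (-(c / 2 * δ)) * EP P r := by
        gcongr
        linarith

theorem t_E (h3 : S_G3) : S_E := by
  obtain ⟨c, C, T0, hc, hc1, hC, hT0, h⟩ := discrete h3
  have hs2 : 0 < Real.sqrt (2 * Real.pi) := by positivity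
  refine ⟨c, Real.sqrt (2 * Real.pi) * C + C, T0, hc, hc1, by positivity, hT0,
    fun T hT δ hδ hδ1 P r Q y hP hr hQ1 hQ hy => ?_⟩
  have hT10 : 10 ≤ T := hT0.trans hT
  have hL0 : 1 ≤ Real.log T := by
    rw [Real.le_log_iff_exp_le (by linarith)]
    linarith [Real.exp_one_lt_d9]
  have hEP : 0 ≤ EP P r := by
    unfold EP
    refine Finset.prod_nonneg fun p hp => ?_
    have := hr p hp
    positivity
  change ∫ t in T..(2 * T), ‖RS P Q y ((t : ℂ) * Complex.I)‖ ^ 2 *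
      ∑ s ∈ ZZ T δ, (mult riemannZeta s : ℝ) * Real.exp (-(s.im - t) ^ 2 / 2) ≤ _
  set A := C * T * (Real.log T) ^ C * T ^ (-(c * δ)) * EP P r with hA
  have hA0 : 0 ≤ A := by positivity
  have hRc := RS_line_cont (Q := Q) hP y
  -- the bound for all shifts
  have hshift : ∀ w : ℝ, ∑ s ∈ ZZ T δ, (mult riemannZeta s : ℝ) *
      ‖RS P Q y (((s.im + w : ℝ) : ℂ) * Complex.I)‖ ^ 2 ≤ A := by
    intro w
    have h1 := h T hT δ hδ hδ1 P r Q
      (fun S => y S * ((qS S : ℕ) : ℂ) ^ (-((w : ℂ) * Complex.I))) hP hr hQ1 hQ ?_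
    · simp only [← RS_turn hP y] at h1
      exact h1
    · intro S hS
      have hq := qS_pos hP hS
      rw [norm_mul, qpow hq, Complex.norm_exp]
      have : (-((w : ℂ) * Complex.I * (Real.log (qS S) : ℂ))).re = 0 := by
        rw [Complex.neg_re, Complex.mul_re, Complex.mul_re, Complex.mul_im]
        simp only [Complex.ofReal_re, Complex.ofReal_im, Complex.I_re, Complex.I_im]
        ring
      rw [this, Real.exp_zero, mul_one]
      exact hy S hS
  have hcf : Continuous (fun t : ℝ => ‖RS P Q y ((t : ℂ) * Complex.I)‖ ^ 2 *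
      ∑ s ∈ ZZ T δ, (mult riemannZeta s : ℝ) * Real.exp (-(s.im - t) ^ 2 / 2)) := by
    refine (hRc.norm.pow 2).mul ?_
    fun_prop
  have hle : (T : ℝ) ≤ 2 * T := by linarith
  have h2 : ENNReal.ofReal (∫ t in T..(2 * T), ‖RS P Q y ((t : ℂ) * Complex.I)‖ ^ 2 *
      ∑ s ∈ ZZ T δ, (mult riemannZeta s : ℝ) * Real.exp (-(s.im - t) ^ 2 / 2)) ≤
      ENNReal.ofReal (A * Real.sqrt (2 * Real.pi)) := by
    rw [intervalIntegral.integral_of_le hle, ofReal_integral_eq_lintegral_ofReal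
      (hcf.integrableOn_Icc.mono_set Set.Ioc_subset_Icc_self)
      (Eventually.of_forall fun t => mul_nonneg (by positivity)
        (Finset.sum_nonneg fun s _ => by positivity))]
    refine (setLIntegral_le_lintegral _ _).trans ?_
    have h3 : ∀ t : ℝ, ENNReal.ofReal (‖RS P Q y ((t : ℂ) * Complex.I)‖ ^ 2 *
        ∑ s ∈ ZZ T δ, (mult riemannZeta s : ℝ) * Real.exp (-(s.im - t) ^ 2 / 2)) =
        ∑ s ∈ ZZ T δ, ENNReal.ofReal ((mult riemannZeta s : ℝ) *
          (‖RS P Q y ((t : ℂ) * Complex.I)‖ ^ 2 * Real.exp (-(s.im - t) ^ 2 / 2))) := by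
      intro t
      rw [← ENNReal.ofReal_sum_of_nonneg (fun s _ => by positivity), Finset.mul_sum]
      congr 1
      refine Finset.sum_congr rfl fun s _ => ?_
      ring
    simp only [h3]
    rw [lintegral_finsetSum' _ (fun s _ => by
      refine Continuous.aemeasurable ?_ |>.ennreal_ofReal
      exact continuous_const.mul ((hRc.norm.pow 2).mul (by fun_prop)))]
    have h4 : ∀ s : ℂ, ∫⁻ t : ℝ, ENNReal.ofReal ((mult riemannZeta s : ℝ) *
        (‖RS P Q y ((t : ℂ) * Complex.I)‖ ^ 2 * Real.exp (-(s.im - t) ^ 2 / 2))) =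
        ∫⁻ w : ℝ, ENNReal.ofReal ((mult riemannZeta s : ℝ) *
          ‖RS P Q y (((s.im + w : ℝ) : ℂ) * Complex.I)‖ ^ 2) *
            ENNReal.ofReal (Real.exp (-(0 - w) ^ 2 / 2)) := by
      intro s
      rw [← lintegral_add_left_eq_self (fun t : ℝ => ENNReal.ofReal ((mult riemannZeta s : ℝ) *
        (‖RS P Q y ((t : ℂ) * Complex.I)‖ ^ 2 * Real.exp (-(s.im - t) ^ 2 / 2)))) s.im]
      refine lintegral_congr fun w => ?_
      rw [← ENNReal.ofReal_mul (by positivity)]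
      congr 1
      rw [mul_assoc]
      congr 3
      congr 1
      ring
    simp only [h4]
    rw [← lintegral_finsetSum' _ (fun s _ => by
      have e1 : Continuous (fun w : ℝ => (mult riemannZeta s : ℝ) *
          ‖RS P Q y (((s.im + w : ℝ) : ℂ) * Complex.I)‖ ^ 2) :=
        continuous_const.mul ((hRc.comp (continuous_const.add continuous_id)).norm.pow 2)
      have e2 : Continuous (fun w : ℝ => Real.exp (-(0 - w) ^ 2 / 2)) := by fun_prop
      exact e1.aemeasurable.ennreal_ofReal.mul e2.aemeasurable.ennreal_ofReal)]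
    have h5 : ∀ w : ℝ, ∑ s ∈ ZZ T δ, ENNReal.ofReal ((mult riemannZeta s : ℝ) *
          ‖RS P Q y (((s.im + w : ℝ) : ℂ) * Complex.I)‖ ^ 2) *
            ENNReal.ofReal (Real.exp (-(0 - w) ^ 2 / 2)) ≤
        ENNReal.ofReal A * ENNReal.ofReal (Real.exp (-(0 - w) ^ 2 / 2)) := by
      intro w
      rw [← Finset.sum_mul, ← ENNReal.ofReal_sum_of_nonneg (fun s _ => by positivity)]
      gcongr
      exact hshift w
    refine (lintegral_mono h5).trans ?_
    rw [lintegral_const_mul' _ _ ENNReal.ofReal_ne_top, ENNReal.ofReal_mul hA0]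
    gcongr
    rw [← H370.gauss_real 0, ofReal_integral_eq_lintegral_ofReal (H370.gauss_real_int 0)
      (Eventually.of_forall fun w => by positivity)]
  have h6 := (ENNReal.ofReal_le_ofReal_iff (by positivity)).1 h2
  refine h6.trans ?_
  rw [hA]
  have h7 : Real.log T ^ C ≤ Real.log T ^ (Real.sqrt (2 * Real.pi) * C + C) :=
    Real.rpow_le_rpow_of_exponent_le hL0 (by nlinarith [mul_pos hs2 hC])
  calc C * T * Real.log T ^ C * T ^ (-(c * δ)) * EP P r * Real.sqrt (2 * Real.pi) =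
      (Real.sqrt (2 * Real.pi) * C) * T * Real.log T ^ C * T ^ (-(c * δ)) * EP P r := by ring
    _ ≤ (Real.sqrt (2 * Real.pi) * C + C) * T *
        Real.log T ^ (Real.sqrt (2 * Real.pi) * C + C) * T ^ (-(c * δ)) * EP P r := by
      gcongr
      linarith

end Pool.Agent.Y884.OM
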