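import Pool.Agent.Y746.OM.Stm
import Pool.Agent.H370R2.PC2
import Pool.Agent.H370R2.DirGood
import Pool.Agent.Helper523.LL.MeanDisc

set_option autoImplicit false

/-!
Project OM (owner helper746), job OM-E: zeros near the critical line against the resonator.
Part 1: auxiliary facts.
-/

namespace Pool.Agent.Y884.OM

open Finset Filter Topology MeasureTheory Pool.Agent.Y746.OM
open H370 (zset mult NN Zf zz)

/-- Sobolev inequality on `[-1,1]` -/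
lemma sob (g g' : ℝ → ℂ) (hg : ∀ u, HasDerivAt g (g' u) u) (hc : Continuous g') {u : ℝ}
    (hu : |u| ≤ 1) :
    ENNReal.ofReal (‖g u‖ ^ 2) ≤ ENNReal.ofReal (‖g 0‖ ^ 2) +
      ∫⁻ x in Set.Icc (-1 : ℝ) 1, ENNReal.ofReal (‖g x‖ ^ 2 + ‖g' x‖ ^ 2) := by
  have hgc : Continuous g := continuous_iff_continuousAt.2 fun x => (hg x).continuousAt
  have hN : ∀ x, HasDerivAt (fun x => ‖g x‖ ^ 2) (2 * inner ℝ (g x) (g' x)) x := fun x =>
    (hg x).norm_sq
  have hDc : Continuous (fun x => 2 * inner ℝ (g x) (g' x)) :=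
    continuous_const.mul (hgc.inner hc)
  have h1 : ∫ x in (0 : ℝ)..u, 2 * inner ℝ (g x) (g' x) = ‖g u‖ ^ 2 - ‖g 0‖ ^ 2 :=
    intervalIntegral.integral_eq_sub_of_hasDerivAt (fun x _ => hN x)
      (hDc.intervalIntegrable _ _)
  have h2 : ∀ x, ‖2 * inner ℝ (g x) (g' x)‖ ≤ ‖g x‖ ^ 2 + ‖g' x‖ ^ 2 := by
    intro x
    have := abs_real_inner_le_norm (g x) (g' x)
    rw [norm_mul, Real.norm_eq_abs, Real.norm_eq_abs, abs_two]
    nlinarith [sq_nonneg (‖g x‖ - ‖g' x‖)]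
  have hEc : Continuous (fun x => ‖g x‖ ^ 2 + ‖g' x‖ ^ 2) := by fun_prop
  have hsub : Set.uIoc 0 u ⊆ Set.Icc (-1 : ℝ) 1 := by
    intro x hx
    rw [abs_le] at hu
    rw [Set.mem_uIoc] at hx
    rcases hx with hx | hx
    · exact ⟨by linarith, by linarith⟩
    · exact ⟨by linarith, by linarith⟩
  have h3 : ‖∫ x in (0 : ℝ)..u, 2 * inner ℝ (g x) (g' x)‖ ≤
      ∫ x in Set.Icc (-1 : ℝ) 1, (‖g x‖ ^ 2 + ‖g' x‖ ^ 2) := by
    have hi : IntegrableOn (fun x => ‖g x‖ ^ 2 + ‖g' x‖ ^ 2) (Set.Icc (-1 : ℝ) 1) :=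
      hEc.integrableOn_Icc
    calc ‖∫ x in (0 : ℝ)..u, 2 * inner ℝ (g x) (g' x)‖
        ≤ ∫ x in Set.uIoc 0 u, ‖2 * inner ℝ (g x) (g' x)‖ :=
          intervalIntegral.norm_integral_le_integral_norm_uIoc
      _ ≤ ∫ x in Set.uIoc 0 u, (‖g x‖ ^ 2 + ‖g' x‖ ^ 2) := by
          refine setIntegral_mono ?_ (hi.mono_set hsub) h2
          exact ((hDc.norm).integrableOn_Icc (a := -1) (b := 1)).mono_set hsub
      _ ≤ ∫ x in Set.Icc (-1 : ℝ) 1, (‖g x‖ ^ 2 + ‖g' x‖ ^ 2) := by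
          refine setIntegral_mono_set hi ?_ (LE.le.eventuallyLE hsub)
          exact Eventually.of_forall fun x => by positivity
  rw [h1] at h3
  have h4 : ‖g u‖ ^ 2 ≤ ‖g 0‖ ^ 2 + ∫ x in Set.Icc (-1 : ℝ) 1, (‖g x‖ ^ 2 + ‖g' x‖ ^ 2) := by
    have := le_abs_self (‖g u‖ ^ 2 - ‖g 0‖ ^ 2)
    rw [Real.norm_eq_abs] at h3
    linarith
  refine (ENNReal.ofReal_le_ofReal h4).trans ?_
  refine ENNReal.ofReal_add_le.trans ?_
  gcongr
  rw [ofReal_integral_eq_lintegral_ofReal hEc.integrableOn_Icc]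
  exact Eventually.of_forall fun x => by positivity

lemma qpow {n : ℕ} (hn : 0 < n) (s : ℂ) :
    (n : ℂ) ^ (-s) = Complex.exp (-(s * (Real.log n : ℂ))) := by
  rw [Complex.cpow_def_of_ne_zero (by exact_mod_cast hn.ne'), ← Complex.natCast_log]
  congr 1
  ring

/-- coefficients with a real shift -/
noncomputable def cf (y : Finset ℕ → ℂ) (L u : ℝ) (S : Finset ℕ) : ℂ :=
  y S * Complex.exp (-((u * (Real.log (qS S) / L) : ℝ) : ℂ))

/-- derivative of the coefficients with a real shift -/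
noncomputable def cg (y : Finset ℕ → ℂ) (L u : ℝ) (S : Finset ℕ) : ℂ :=
  -((Real.log (qS S) / L : ℝ) : ℂ) * cf y L u S

lemma qS_pos {P S : Finset ℕ} {Q : ℝ} (hP : ∀ p ∈ P, p.Prime) (hS : S ∈ FS P Q) : 0 < qS S := by
  unfold FS at hS
  rw [mem_filter, mem_powerset] at hS
  exact Finset.prod_pos fun p hp => (hP p (hS.1 hp)).pos

lemma qS_le {P S : Finset ℕ} {Q : ℝ} (hS : S ∈ FS P Q) : (qS S : ℝ) ≤ Q := by
  unfold FS at hS
  exact (mem_filter.1 hS).2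

lemma RS_shift {P : Finset ℕ} {Q : ℝ} (hP : ∀ p ∈ P, p.Prime) (y : Finset ℕ → ℂ) {L : ℝ}
    (hL : L ≠ 0) (τ v : ℝ) :
    RS P Q y ((τ : ℂ) + (v : ℂ) * Complex.I) =
      RS P Q (cf y L (τ * L)) ((v : ℂ) * Complex.I) := by
  unfold RS
  refine Finset.sum_congr rfl fun S hS => ?_
  have hq := qS_pos hP hS
  rw [qpow hq, qpow hq, cf, mul_assoc, ← Complex.exp_add]
  congr 2
  have : τ * L * (Real.log (qS S) / L) = τ * Real.log (qS S) := by field_simp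
  rw [this]
  push_cast
  ring

lemma RS_turn {P : Finset ℕ} {Q : ℝ} (hP : ∀ p ∈ P, p.Prime) (y : Finset ℕ → ℂ) (g w : ℝ) :
    RS P Q y (((g + w : ℝ) : ℂ) * Complex.I) =
      RS P Q (fun S => y S * ((qS S : ℕ) : ℂ) ^ (-((w : ℂ) * Complex.I)))
        ((g : ℂ) * Complex.I) := by
  unfold RS
  refine Finset.sum_congr rfl fun S hS => ?_
  have hq := qS_pos hP hS
  simp only [qpow hq]
  have h : Complex.exp (-(((g + w : ℝ) : ℂ) * Complex.I * (Real.log (qS S) : ℂ))) =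
      Complex.exp (-((w : ℂ) * Complex.I * (Real.log (qS S) : ℂ))) *
        Complex.exp (-((g : ℂ) * Complex.I * (Real.log (qS S) : ℂ))) := by
    rw [← Complex.exp_add]
    congr 1
    push_cast
    ring
  rw [h]
  ring

lemma cf_zero (y : Finset ℕ → ℂ) (L : ℝ) : cf y L 0 = y := by
  funext S
  simp [cf]

lemma x_mem {P S : Finset ℕ} {Q L : ℝ} (hP : ∀ p ∈ P, p.Prime) (hL : 0 < L)
    (hQ : Real.log Q ≤ L) (hS : S ∈ FS P Q) :
    0 ≤ Real.log (qS S) / L ∧ Real.log (qS S) / L ≤ 1 := by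
  have h1 : (1 : ℝ) ≤ qS S := by exact_mod_cast qS_pos hP hS
  have h2 := qS_le hS
  refine ⟨div_nonneg (Real.log_nonneg h1) hL.le, (div_le_one hL).2 ?_⟩
  exact (Real.log_le_log (by linarith) h2).trans hQ

lemma cf_norm {P S : Finset ℕ} {Q L u : ℝ} (hP : ∀ p ∈ P, p.Prime) (hL : 0 < L)
    (hQ : Real.log Q ≤ L) (hS : S ∈ FS P Q) (hu : |u| ≤ 1) (y : Finset ℕ → ℂ) {b : ℝ}
    (hy : ‖y S‖ ≤ b) : ‖cf y L u S‖ ≤ Real.exp 1 * b := by
  obtain ⟨h1, h2⟩ := x_mem hP hL hQ hS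
  rw [cf, norm_mul, Complex.norm_exp, mul_comm]
  have h3 : (-((u * (Real.log (qS S) / L) : ℝ) : ℂ)).re = -(u * (Real.log (qS S) / L)) := by
    rw [Complex.neg_re, Complex.ofReal_re]
  rw [h3]
  have h4 : -(u * (Real.log (qS S) / L)) ≤ 1 := by
    have := abs_le.1 hu
    nlinarith
  have h5 := Real.exp_le_exp.2 h4
  exact mul_le_mul h5 hy (norm_nonneg _) (Real.exp_pos _).le

lemma cg_norm {P S : Finset ℕ} {Q L u : ℝ} (hP : ∀ p ∈ P, p.Prime) (hL : 0 < L)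
    (hQ : Real.log Q ≤ L) (hS : S ∈ FS P Q) (hu : |u| ≤ 1) (y : Finset ℕ → ℂ) {b : ℝ}
    (hy : ‖y S‖ ≤ b) : ‖cg y L u S‖ ≤ Real.exp 1 * b := by
  obtain ⟨h1, h2⟩ := x_mem hP hL hQ hS
  rw [cg, norm_mul, norm_neg, Complex.norm_real, Real.norm_eq_abs, abs_of_nonneg h1]
  have h3 := cf_norm hP hL hQ hS hu y hy
  calc Real.log (qS S) / L * ‖cf y L u S‖ ≤ 1 * ‖cf y L u S‖ := by gcongr
    _ ≤ _ := by rw [one_mul]; exact h3

lemma RS_deriv (P : Finset ℕ) (Q : ℝ) (y : Finset ℕ → ℂ) (L : ℝ) (s : ℂ) (u : ℝ) :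
    HasDerivAt (fun u => RS P Q (cf y L u) s) (RS P Q (cg y L u) s) u := by
  unfold RS
  refine HasDerivAt.fun_sum fun S _ => ?_
  refine HasDerivAt.mul_const ?_ _
  have h1 : HasDerivAt (fun u : ℝ => -((u * (Real.log (qS S) / L) : ℝ) : ℂ))
      (-((Real.log (qS S) / L : ℝ) : ℂ)) u := by
    refine HasDerivAt.neg ?_
    refine HasDerivAt.ofReal_comp ?_
    simpa using (hasDerivAt_id u).mul_const (Real.log (qS S) / L)
  have h2 := (h1.cexp).const_mul (y S)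
  unfold cg cf
  refine h2.congr_deriv ?_
  ring

lemma RS_cg_cont (P : Finset ℕ) (Q : ℝ) (y : Finset ℕ → ℂ) (L : ℝ) (s : ℂ) :
    Continuous (fun u => RS P Q (cg y L u) s) := by
  unfold RS cg cf
  fun_prop

lemma RS_cont2 (P : Finset ℕ) (Q : ℝ) (hP : ∀ p ∈ P, p.Prime) (y : Finset ℕ → ℂ) (L : ℝ) :
    Continuous (fun p : ℝ × ℝ => RS P Q (cf y L p.2) ((p.1 : ℂ) * Complex.I)) ∧
    Continuous (fun p : ℝ × ℝ => RS P Q (cg y L p.2) ((p.1 : ℂ) * Complex.I)) := by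
  unfold RS
  constructor
  · refine continuous_finsetSum _ fun S hS => ?_
    simp only [qpow (qS_pos hP hS)]
    unfold cf
    fun_prop
  · refine continuous_finsetSum _ fun S hS => ?_
    simp only [qpow (qS_pos hP hS)]
    unfold cg cf
    fun_prop

lemma RS_diff (P : Finset ℕ) (Q : ℝ) (hP : ∀ p ∈ P, p.Prime) (y : Finset ℕ → ℂ) :
    Differentiable ℂ (fun s => RS P Q y s) := by
  unfold RS
  refine Differentiable.fun_sum fun S hS => ?_
  simp only [qpow (qS_pos hP hS)]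
  fun_prop

lemma DD_diff (g : ℕ → ℂ) (N : ℕ) : Differentiable ℂ (fun s => DD g N s) := by
  unfold DD
  refine Differentiable.fun_sum fun n hn => ?_
  rw [Finset.mem_Icc] at hn
  simp only [qpow (show 0 < n by omega)]
  fun_prop

end Pool.Agent.Y884.OM
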