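import Pool.Agent.Y884.OM.E1

set_option autoImplicit false

/-!
Project OM (owner helper746), job OM-E: zeros near the critical line against the resonator.
Part 2: from a zero to the area integral.
-/

namespace Pool.Agent.Y884.OM

open Finset Filter Topology MeasureTheory Pool.Agent.Y746.OM
open H370 (zset mult NN Zf zz)
open scoped ENNReal

/-- the function `1 - ζ M` -/
noncomputable def FF (N : ℕ) (s : ℂ) : ℂ := 1 - riemannZeta s * DD mu N s

lemma FF_diff (N : ℕ) {s : ℂ} (hs : 0 < s.im) : DifferentiableAt ℂ (FF N) s := by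
  unfold FF
  have h1 : s ≠ 1 := by rintro rfl; simp at hs
  exact (differentiableAt_const _).sub
    ((differentiableAt_riemannZeta h1).mul ((DD_diff mu N) s))

/-- the majorant on a horizontal line -/
noncomputable def GG (P : Finset ℕ) (Q : ℝ) (y : Finset ℕ → ℂ) (L v : ℝ) : ℝ≥0∞ :=
  ENNReal.ofReal (‖RS P Q y ((v : ℂ) * Complex.I)‖ ^ 2) +
    ∫⁻ u in Set.Icc (-1 : ℝ) 1, ENNReal.ofReal (‖RS P Q (cf y L u) ((v : ℂ) * Complex.I)‖ ^ 2 +
      ‖RS P Q (cg y L u) ((v : ℂ) * Complex.I)‖ ^ 2)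

lemma RS_le_GG {P : Finset ℕ} {Q : ℝ} (hP : ∀ p ∈ P, p.Prime) (y : Finset ℕ → ℂ) {L : ℝ}
    (hL : 0 < L) {τ : ℝ} (hτ : |τ| ≤ 1 / L) (v : ℝ) :
    ENNReal.ofReal (‖RS P Q y ((τ : ℂ) + (v : ℂ) * Complex.I)‖ ^ 2) ≤ GG P Q y L v := by
  rw [RS_shift hP y hL.ne']
  have hu : |τ * L| ≤ 1 := by
    rw [abs_mul, abs_of_pos hL]
    calc |τ| * L ≤ 1 / L * L := by gcongr
      _ = 1 := by field_simp
  have h := sob (fun u => RS P Q (cf y L u) ((v : ℂ) * Complex.I))
    (fun u => RS P Q (cg y L u) ((v : ℂ) * Complex.I))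
    (fun u => RS_deriv P Q y L _ u) (RS_cg_cont P Q y L _) hu
  simp only [cf_zero] at h
  exact h

/-- from a zero to the disc -/
lemma disc {P : Finset ℕ} {Q : ℝ} (hP : ∀ p ∈ P, p.Prime) (y : Finset ℕ → ℂ) {L : ℝ}
    (hL : 1 ≤ L) (N : ℕ) {s : ℂ} (hs : 2 ≤ s.im) (hz : riemannZeta s = 0) :
    ENNReal.ofReal (Real.pi * (1 / L) ^ 2 * ‖RS P Q y ((s.im : ℂ) * Complex.I)‖ ^ 2) ≤
      ∫⁻ x, (Metric.ball s (1 / L)).indicator
        (fun x => ENNReal.ofReal (‖FF N x‖ ^ 2) * GG P Q y L x.im) x := by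
  have hL0 : 0 < L := by linarith
  have hr : 0 < 1 / L := by positivity
  have hr1 : 1 / L ≤ 1 := by rw [div_le_one hL0]; exact hL
  have him : ∀ z ∈ Metric.ball (0 : ℂ) (1 / L), 0 < (s + z).im := by
    intro z hz
    rw [mem_ball_zero_iff] at hz
    have h1 := (abs_le.1 (Complex.abs_im_le_norm z)).1
    rw [Complex.add_im]
    linarith
  set H : ℂ → ℂ := fun z => (FF N (s + z) * RS P Q y ((s.im : ℂ) * Complex.I + z)) ^ 2 with hH
  have hHd : DifferentiableOn ℂ H (Metric.ball 0 (1 / L)) := by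
    intro z hz
    refine DifferentiableAt.differentiableWithinAt ?_
    have h1 : DifferentiableAt ℂ (fun z => FF N (s + z)) z := by
      have := FF_diff N (him z hz)
      exact this.comp z (by fun_prop)
    have h2 : DifferentiableAt ℂ (fun z => RS P Q y ((s.im : ℂ) * Complex.I + z)) z := by
      have := (RS_diff P Q hP y) ((s.im : ℂ) * Complex.I + z)
      exact this.comp z (by fun_prop)
    exact (h1.mul h2).pow 2
  have h0 := Pool.Agent.Helper523.LL.mean_disc H (1 / L) hr hHd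
  have hF0 : FF N s = 1 := by unfold FF; rw [hz, zero_mul, sub_zero]
  have hH0 : ‖H 0‖ = ‖RS P Q y ((s.im : ℂ) * Complex.I)‖ ^ 2 := by
    simp only [hH, add_zero, hF0, one_mul, norm_pow]
  rw [hH0] at h0
  refine h0.trans ?_
  rw [← lintegral_indicator Metric.isOpen_ball.measurableSet]
  rw [← lintegral_add_left_eq_self (fun x => (Metric.ball s (1 / L)).indicator
        (fun x => ENNReal.ofReal (‖FF N x‖ ^ 2) * GG P Q y L x.im) x) s]
  refine lintegral_mono fun z => ?_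
  by_cases hz : z ∈ Metric.ball (0 : ℂ) (1 / L)
  · have hz' : s + z ∈ Metric.ball s (1 / L) := by
      rw [Metric.mem_ball, dist_eq_norm]
      rw [mem_ball_zero_iff] at hz
      simpa using hz
    rw [Set.indicator_of_mem hz, Set.indicator_of_mem hz']
    simp only [hH, norm_pow, norm_mul, mul_pow]
    rw [ENNReal.ofReal_mul (by positivity)]
    gcongr
    have h3 : (s.im : ℂ) * Complex.I + z = ((z.re : ℝ) : ℂ) + ((s + z).im : ℂ) * Complex.I := by
      apply Complex.ext <;> simp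
    rw [h3]
    refine RS_le_GG hP y hL0 ?_ _
    rw [mem_ball_zero_iff] at hz
    exact (Complex.abs_re_le_norm z).trans hz.le
  · rw [Set.indicator_of_notMem hz]
    exact zero_le

/-- the rectangle -/
def Rc (T δ : ℝ) : Set ℂ :=
  {x | x.re ∈ Set.Icc (1 / 2 + δ / 2) (1 / 2 + 1 / 16) ∧ x.im ∈ Set.Icc (T / 2) (4 * T)}

lemma measurable_Rc (T δ : ℝ) : MeasurableSet (Rc T δ) := by
  unfold Rc
  exact (Complex.measurable_re measurableSet_Icc).inter (Complex.measurable_im measurableSet_Icc)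

lemma ball_sub {T δ L : ℝ} (hT : 4 ≤ T) (hL : 32 ≤ L) (hδ : 2 / L ≤ δ) {s : ℂ}
    (h1 : δ ≤ s.re - 1 / 2) (h2 : s.re - 1 / 2 ≤ 1 / 32) (h3 : T ≤ s.im) (h4 : s.im ≤ 2 * T) :
    Metric.ball s (1 / L) ⊆ Rc T δ := by
  intro x hx
  rw [Metric.mem_ball, dist_eq_norm] at hx
  have hL0 : 0 < L := by linarith
  have hL1 : 1 / L ≤ 1 / 32 := by gcongr
  have h5 := abs_le.1 ((Complex.abs_re_le_norm (x - s)).trans hx.le)
  have h6 := abs_le.1 ((Complex.abs_im_le_norm (x - s)).trans hx.le)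
  rw [Complex.sub_re] at h5
  rw [Complex.sub_im] at h6
  have h7 : 1 / L ≤ δ / 2 := by
    have : 1 / L = 2 / L / 2 := by ring
    rw [this]; gcongr
  refine ⟨⟨?_, ?_⟩, ⟨?_, ?_⟩⟩ <;> linarith [h5.1, h5.2, h6.1, h6.2]

/-- summation over the zeros -/
lemma sum_zeros {P : Finset ℕ} {Q : ℝ} (hP : ∀ p ∈ P, p.Prime) (y : Finset ℕ → ℂ) {T δ L : ℝ}
    (hT : 4 ≤ T) (hL : 32 ≤ L) (hδ : 2 / L ≤ δ) (N : ℕ) {K : ℝ}
    (hK : ∀ t : ℝ, H370.Zg riemannZeta T (2 * T) t ≤ K) :
    ENNReal.ofReal (Real.pi * (1 / L) ^ 2 *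
      ∑ s ∈ (Zf riemannZeta T (2 * T)).filter (fun s => δ ≤ s.re - 1 / 2 ∧ s.re - 1 / 2 ≤ 1 / 32),
        (mult riemannZeta s : ℝ) * ‖RS P Q y ((s.im : ℂ) * Complex.I)‖ ^ 2) ≤
      ENNReal.ofReal (Real.exp (1 / 2) * K) *
        ∫⁻ x in Rc T δ, ENNReal.ofReal (‖FF N x‖ ^ 2) * GG P Q y L x.im := by
  have hL0 : 0 < L := by linarith
  have hU : (1 : ℝ) ≤ T := by linarith
  set Z := (Zf riemannZeta T (2 * T)).filter
    (fun s => δ ≤ s.re - 1 / 2 ∧ s.re - 1 / 2 ≤ 1 / 32) with hZ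
  set Φ : ℂ → ℝ≥0∞ := fun x => ENNReal.ofReal (‖FF N x‖ ^ 2) * GG P Q y L x.im with hΦ
  have hmem : ∀ s ∈ Z, s ∈ zset riemannZeta T (2 * T) ∧ δ ≤ s.re - 1 / 2 ∧
      s.re - 1 / 2 ≤ 1 / 32 := by
    intro s hs
    rw [hZ, mem_filter] at hs
    exact ⟨(H370.mem_Zf H370.good_zeta hU).1 hs.1, hs.2⟩
  -- each zero
  have h1 : ENNReal.ofReal (Real.pi * (1 / L) ^ 2 *
      ∑ s ∈ Z, (mult riemannZeta s : ℝ) * ‖RS P Q y ((s.im : ℂ) * Complex.I)‖ ^ 2) ≤
      ∑ s ∈ Z, (mult riemannZeta s : ℝ≥0∞) * ∫⁻ x, (Metric.ball s (1 / L)).indicator Φ x := by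
    rw [Finset.mul_sum, ENNReal.ofReal_sum_of_nonneg (fun s _ => by positivity)]
    refine Finset.sum_le_sum fun s hs => ?_
    obtain ⟨hs1, hs2, hs3⟩ := hmem s hs
    have h2 := disc (Q := Q) hP y (show 1 ≤ L by linarith) N (s := s)
      (by linarith [hs1.2.2.1]) hs1.2.2.2.2
    have h3 : Real.pi * (1 / L) ^ 2 *
        ((mult riemannZeta s : ℝ) * ‖RS P Q y ((s.im : ℂ) * Complex.I)‖ ^ 2) =
        (mult riemannZeta s : ℝ) *
          (Real.pi * (1 / L) ^ 2 * ‖RS P Q y ((s.im : ℂ) * Complex.I)‖ ^ 2) := by ring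
    rw [h3, ENNReal.ofReal_mul (by positivity), ENNReal.ofReal_natCast]
    gcongr
  refine h1.trans ?_
  -- exchange
  have h4 : ∀ Z' : Finset ℂ,
      ∑ s ∈ Z', (mult riemannZeta s : ℝ≥0∞) * ∫⁻ x, (Metric.ball s (1 / L)).indicator Φ x ≤
      ∫⁻ x, ∑ s ∈ Z', (mult riemannZeta s : ℝ≥0∞) * (Metric.ball s (1 / L)).indicator Φ x := by
    classical
    intro Z'
    induction Z' using Finset.induction_on with
    | empty => simp
    | insert a Z' ha ih =>
      rw [Finset.sum_insert ha]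
      simp only [Finset.sum_insert ha]
      refine le_trans ?_ (le_lintegral_add _ _)
      gcongr
      exact lintegral_const_mul_le _ _
  refine (h4 Z).trans ?_
  have h5 : ∀ x, ∑ s ∈ Z, (mult riemannZeta s : ℝ≥0∞) * (Metric.ball s (1 / L)).indicator Φ x ≤
      (Rc T δ).indicator (fun x => ENNReal.ofReal (Real.exp (1 / 2) * K) * Φ x) x := by
    intro x
    by_cases hx : x ∈ Rc T δ
    · rw [Set.indicator_of_mem hx]
      have h6 : ∀ s ∈ Z, (mult riemannZeta s : ℝ≥0∞) * (Metric.ball s (1 / L)).indicator Φ x ≤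
          ENNReal.ofReal ((mult riemannZeta s : ℝ) *
            (Real.exp (1 / 2) * Real.exp (-(s.im - x.im) ^ 2 / 2))) * Φ x := by
        intro s hs
        by_cases hxs : x ∈ Metric.ball s (1 / L)
        · rw [Set.indicator_of_mem hxs, ENNReal.ofReal_mul (by positivity),
            ENNReal.ofReal_natCast, mul_assoc]
          gcongr
          refine le_mul_of_one_le_left zero_le ?_
          rw [← ENNReal.ofReal_one]
          apply ENNReal.ofReal_le_ofReal
          rw [← Real.exp_add]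
          apply Real.one_le_exp
          rw [Metric.mem_ball, dist_eq_norm] at hxs
          have h7 := (Complex.abs_im_le_norm (x - s)).trans hxs.le
          rw [Complex.sub_im] at h7
          have h8 : 1 / L ≤ 1 := by rw [div_le_one hL0]; linarith
          have h9 := abs_le.1 (h7.trans h8)
          nlinarith [h9.1, h9.2]
        · rw [Set.indicator_of_notMem hxs, mul_zero]
          exact zero_le
      refine (Finset.sum_le_sum h6).trans ?_
      rw [← Finset.sum_mul, ← ENNReal.ofReal_sum_of_nonneg (fun s _ => by positivity)]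
      gcongr
      have h10 : ∑ s ∈ Z, (mult riemannZeta s : ℝ) *
          (Real.exp (1 / 2) * Real.exp (-(s.im - x.im) ^ 2 / 2)) =
          Real.exp (1 / 2) * ∑ s ∈ Z, (mult riemannZeta s : ℝ) *
            Real.exp (-(s.im - x.im) ^ 2 / 2) := by
        rw [Finset.mul_sum]
        refine Finset.sum_congr rfl fun s _ => ?_
        ring
      rw [h10]
      gcongr
      refine le_trans ?_ (hK x.im)
      unfold H370.Zg
      exact Finset.sum_le_sum_of_subset_of_nonneg (Finset.filter_subset _ _)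
        fun _ _ _ => by positivity
    · rw [Set.indicator_of_notMem hx]
      refine le_of_eq (Finset.sum_eq_zero fun s hs => ?_)
      obtain ⟨hs1, hs2, hs3⟩ := hmem s hs
      have h7 : x ∉ Metric.ball s (1 / L) := fun h => hx
        (ball_sub hT hL hδ hs2 hs3 hs1.2.2.1.le hs1.2.2.2.1 h)
      rw [Set.indicator_of_notMem h7, mul_zero]
  refine (lintegral_mono h5).trans ?_
  rw [lintegral_indicator (measurable_Rc T δ), lintegral_const_mul' _ _ ENNReal.ofReal_ne_top]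

end Pool.Agent.Y884.OM
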