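import Pool.Agent.Y884.OM.E2

set_option autoImplicit false

/-!
Project OM (owner helper746), job OM-E: zeros near the critical line against the resonator.
Part 3: the area integral.
-/

namespace Pool.Agent.Y884.OM

open Finset Filter Topology MeasureTheory Pool.Agent.Y746.OM
open H370 (zset mult NN Zf zz)
open scoped ENNReal

lemma FF_line_cont (N : ℕ) (a : ℝ) {A B : ℝ} (hA : 0 < A) :
    ContinuousOn (fun v : ℝ => FF N ((a : ℂ) + (v : ℂ) * Complex.I)) (Set.Icc A B) := by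
  intro v hv
  refine ContinuousAt.continuousWithinAt ?_
  have h1 : 0 < ((a : ℂ) + (v : ℂ) * Complex.I).im := by
    simp only [Complex.add_im, Complex.ofReal_im, Complex.mul_im, Complex.ofReal_re,
      Complex.I_im, Complex.I_re, mul_one, mul_zero, zero_add, add_zero]
    linarith [hv.1]
  have h2 : ContinuousAt (fun v : ℝ => (a : ℂ) + (v : ℂ) * Complex.I) v := by fun_prop
  exact ContinuousAt.comp (f := fun v : ℝ => (a : ℂ) + (v : ℂ) * Complex.I)
    (FF_diff N h1).continuousAt h2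

lemma RS_line_cont {P : Finset ℕ} {Q : ℝ} (hP : ∀ p ∈ P, p.Prime) (y : Finset ℕ → ℂ) :
    Continuous (fun v : ℝ => RS P Q y ((v : ℂ) * Complex.I)) :=
  (RS_diff P Q hP y).continuous.comp (by fun_prop)

lemma line {P : Finset ℕ} {Q : ℝ} (hP : ∀ p ∈ P, p.Prime) (y : Finset ℕ → ℂ) (N : ℕ)
    {T a B : ℝ} (hT : 0 < T)
    (h : ∫ v in (T / 2)..(4 * T), ‖FF N ((a : ℂ) + (v : ℂ) * Complex.I)‖ ^ 2 *
      ‖RS P Q y ((v : ℂ) * Complex.I)‖ ^ 2 ≤ B) :
    ∫⁻ v in Set.Icc (T / 2) (4 * T), ENNReal.ofReal (‖FF N ((a : ℂ) + (v : ℂ) * Complex.I)‖ ^ 2 *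
      ‖RS P Q y ((v : ℂ) * Complex.I)‖ ^ 2) ≤ ENNReal.ofReal B := by
  have hc : ContinuousOn (fun v : ℝ => ‖FF N ((a : ℂ) + (v : ℂ) * Complex.I)‖ ^ 2 *
      ‖RS P Q y ((v : ℂ) * Complex.I)‖ ^ 2) (Set.Icc (T / 2) (4 * T)) :=
    ((FF_line_cont N a (by positivity)).norm.pow 2).mul
      ((RS_line_cont hP y).continuousOn.norm.pow 2)
  rw [← ofReal_integral_eq_lintegral_ofReal (hc.integrableOn_Icc)
    (Eventually.of_forall fun v => by positivity)]
  apply ENNReal.ofReal_le_ofReal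
  rwa [integral_Icc_eq_integral_Ioc, ← intervalIntegral.integral_of_le (by linarith)]

/-- one vertical line -/
lemma row {P : Finset ℕ} {Q : ℝ} (hP : ∀ p ∈ P, p.Prime) {r : ℕ → ℝ} (hr : ∀ p ∈ P, 0 ≤ r p)
    (y : Finset ℕ → ℂ) (hy : ∀ S ∈ FS P Q, ‖y S‖ ≤ ∏ p ∈ S, r p) (N : ℕ) {T a B L : ℝ}
    (hT : 0 < T) (hL : 0 < L) (hQ : Real.log Q ≤ L) (hB0 : 0 ≤ B)
    (hB : ∀ (K : ℝ) (y' : Finset ℕ → ℂ), 0 ≤ K → (∀ S ∈ FS P Q, ‖y' S‖ ≤ K * ∏ p ∈ S, r p) →
      ∫⁻ v in Set.Icc (T / 2) (4 * T), ENNReal.ofReal (‖FF N ((a : ℂ) + (v : ℂ) * Complex.I)‖ ^ 2 *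
        ‖RS P Q y' ((v : ℂ) * Complex.I)‖ ^ 2) ≤ ENNReal.ofReal (B * K ^ 2)) :
    ∫⁻ v in Set.Icc (T / 2) (4 * T), ENNReal.ofReal (‖FF N ((a : ℂ) + (v : ℂ) * Complex.I)‖ ^ 2) *
      GG P Q y L v ≤ ENNReal.ofReal (B * (1 + 4 * Real.exp 1 ^ 2)) := by
  unfold GG
  simp only [mul_add]
  have hFc : ContinuousOn (fun v : ℝ => ‖FF N ((a : ℂ) + (v : ℂ) * Complex.I)‖ ^ 2)
      (Set.Icc (T / 2) (4 * T)) := (FF_line_cont N a (by positivity)).norm.pow 2
  have hm1 : AEMeasurable (fun v : ℝ => ENNReal.ofReal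
      (‖FF N ((a : ℂ) + (v : ℂ) * Complex.I)‖ ^ 2) *
      ENNReal.ofReal (‖RS P Q y ((v : ℂ) * Complex.I)‖ ^ 2))
      (volume.restrict (Set.Icc (T / 2) (4 * T))) :=
    ((hFc.aemeasurable measurableSet_Icc).ennreal_ofReal).mul
      (((RS_line_cont hP y).norm.pow 2).measurable.ennreal_ofReal).aemeasurable
  rw [lintegral_add_left' hm1]
  have h1 : ∫⁻ v in Set.Icc (T / 2) (4 * T), ENNReal.ofReal
      (‖FF N ((a : ℂ) + (v : ℂ) * Complex.I)‖ ^ 2) *
      ENNReal.ofReal (‖RS P Q y ((v : ℂ) * Complex.I)‖ ^ 2) ≤ ENNReal.ofReal (B * 1) := by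
    have := hB 1 y zero_le_one (by simpa using hy)
    rw [one_pow] at this
    refine le_trans (le_of_eq ?_) this
    refine lintegral_congr fun v => ?_
    rw [ENNReal.ofReal_mul (by positivity)]
  have h2 : ∫⁻ v in Set.Icc (T / 2) (4 * T), ENNReal.ofReal
      (‖FF N ((a : ℂ) + (v : ℂ) * Complex.I)‖ ^ 2) *
      ∫⁻ u in Set.Icc (-1 : ℝ) 1, ENNReal.ofReal (‖RS P Q (cf y L u) ((v : ℂ) * Complex.I)‖ ^ 2 +
        ‖RS P Q (cg y L u) ((v : ℂ) * Complex.I)‖ ^ 2) ≤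
      ENNReal.ofReal (B * (4 * Real.exp 1 ^ 2)) := by
    have h3 : ∀ v : ℝ, ENNReal.ofReal (‖FF N ((a : ℂ) + (v : ℂ) * Complex.I)‖ ^ 2) *
        ∫⁻ u in Set.Icc (-1 : ℝ) 1, ENNReal.ofReal
          (‖RS P Q (cf y L u) ((v : ℂ) * Complex.I)‖ ^ 2 +
          ‖RS P Q (cg y L u) ((v : ℂ) * Complex.I)‖ ^ 2) =
        ∫⁻ u in Set.Icc (-1 : ℝ) 1, ENNReal.ofReal
          (‖FF N ((a : ℂ) + (v : ℂ) * Complex.I)‖ ^ 2 *
          ‖RS P Q (cf y L u) ((v : ℂ) * Complex.I)‖ ^ 2 +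
          ‖FF N ((a : ℂ) + (v : ℂ) * Complex.I)‖ ^ 2 *
          ‖RS P Q (cg y L u) ((v : ℂ) * Complex.I)‖ ^ 2) := by
      intro v
      rw [← lintegral_const_mul' _ _ ENNReal.ofReal_ne_top]
      refine lintegral_congr fun u => ?_
      rw [← ENNReal.ofReal_mul (by positivity), mul_add]
    simp only [h3]
    obtain ⟨hc1, hc2⟩ := RS_cont2 P Q hP y L
    have hF2 : ContinuousOn (fun p : ℝ × ℝ => ‖FF N ((a : ℂ) + (p.1 : ℂ) * Complex.I)‖ ^ 2)
        (Set.Icc (T / 2) (4 * T) ×ˢ Set.Icc (-1 : ℝ) 1) := by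
      have := hFc.comp (f := Prod.fst) (s := Set.Icc (T / 2) (4 * T) ×ˢ Set.Icc (-1 : ℝ) 1)
        continuous_fst.continuousOn (fun p hp => hp.1)
      exact this
    have hc3 : ContinuousOn (fun p : ℝ × ℝ => ‖FF N ((a : ℂ) + (p.1 : ℂ) * Complex.I)‖ ^ 2 *
        ‖RS P Q (cf y L p.2) ((p.1 : ℂ) * Complex.I)‖ ^ 2 +
        ‖FF N ((a : ℂ) + (p.1 : ℂ) * Complex.I)‖ ^ 2 *
        ‖RS P Q (cg y L p.2) ((p.1 : ℂ) * Complex.I)‖ ^ 2)
        (Set.Icc (T / 2) (4 * T) ×ˢ Set.Icc (-1 : ℝ) 1) :=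
      (hF2.mul (hc1.continuousOn.norm.pow 2)).add (hF2.mul (hc2.continuousOn.norm.pow 2))
    have hm2 := (hc3.aemeasurable (μ := volume)
      (measurableSet_Icc.prod measurableSet_Icc)).ennreal_ofReal
    rw [Measure.volume_eq_prod, ← Measure.prod_restrict] at hm2
    rw [lintegral_lintegral_swap hm2]
    have h4 : ∀ u ∈ Set.Icc (-1 : ℝ) 1, ∫⁻ v in Set.Icc (T / 2) (4 * T), ENNReal.ofReal
          (‖FF N ((a : ℂ) + (v : ℂ) * Complex.I)‖ ^ 2 *
          ‖RS P Q (cf y L u) ((v : ℂ) * Complex.I)‖ ^ 2 +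
          ‖FF N ((a : ℂ) + (v : ℂ) * Complex.I)‖ ^ 2 *
          ‖RS P Q (cg y L u) ((v : ℂ) * Complex.I)‖ ^ 2) ≤
        ENNReal.ofReal (B * (2 * Real.exp 1 ^ 2)) := by
      intro u hu
      have hu' : |u| ≤ 1 := abs_le.2 ⟨hu.1, hu.2⟩
      have h5 := hB (Real.exp 1) (cf y L u) (Real.exp_pos _).le
        (fun S hS => cf_norm hP hL hQ hS hu' y (hy S hS))
      have h6 := hB (Real.exp 1) (cg y L u) (Real.exp_pos _).le
        (fun S hS => cg_norm hP hL hQ hS hu' y (hy S hS))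
      have h7 : ENNReal.ofReal (B * (2 * Real.exp 1 ^ 2)) =
          ENNReal.ofReal (B * Real.exp 1 ^ 2) + ENNReal.ofReal (B * Real.exp 1 ^ 2) := by
        rw [← ENNReal.ofReal_add (by positivity) (by positivity)]
        congr 1
        ring
      rw [h7]
      refine le_trans ?_ (add_le_add h5 h6)
      have hm3 : AEMeasurable (fun v : ℝ => ENNReal.ofReal
          (‖FF N ((a : ℂ) + (v : ℂ) * Complex.I)‖ ^ 2 *
          ‖RS P Q (cf y L u) ((v : ℂ) * Complex.I)‖ ^ 2))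
          (volume.restrict (Set.Icc (T / 2) (4 * T))) :=
        ((hFc.mul ((RS_line_cont hP _).continuousOn.norm.pow 2)).aemeasurable
          measurableSet_Icc).ennreal_ofReal
      rw [← lintegral_add_left' hm3]
      refine lintegral_mono fun v => ?_
      rw [← ENNReal.ofReal_add (by positivity) (by positivity)]
    refine (setLIntegral_mono' measurableSet_Icc h4).trans ?_
    rw [setLIntegral_const, Real.volume_Icc, ← ENNReal.ofReal_mul (by positivity)]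
    apply ENNReal.ofReal_le_ofReal
    apply le_of_eq
    ring
  refine (add_le_add h1 h2).trans ?_
  rw [← ENNReal.ofReal_add (by positivity) (by positivity)]

/-- the area integral -/
lemma area (Φ : ℂ → ℝ≥0∞) {T δ : ℝ} (hδ : 0 ≤ δ) {M : ℝ≥0∞}
    (h : ∀ a : ℝ, a ∈ Set.Icc (1 / 2 + δ / 2) (1 / 2 + 1 / 16) →
      ∫⁻ v in Set.Icc (T / 2) (4 * T), Φ ((a : ℂ) + (v : ℂ) * Complex.I) ≤ M) :
    ∫⁻ x in Rc T δ, Φ x ≤ M := by
  rw [← lintegral_indicator (measurable_Rc T δ)]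
  have h1 := (Complex.volume_preserving_equiv_real_prod.symm).lintegral_comp_emb
    (Complex.measurableEquivRealProd.symm.measurableEmbedding) ((Rc T δ).indicator Φ)
  rw [← h1, Measure.volume_eq_prod]
  refine (lintegral_prod_le _).trans ?_
  have h2 : ∀ x : ℝ, ∫⁻ v : ℝ, (Rc T δ).indicator Φ
      (Complex.measurableEquivRealProd.symm (x, v)) ≤
      (Set.Icc (1 / 2 + δ / 2) (1 / 2 + 1 / 16)).indicator (fun _ => M) x := by
    intro x
    by_cases hx : x ∈ Set.Icc (1 / 2 + δ / 2) (1 / 2 + 1 / 16)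
    · rw [Set.indicator_of_mem hx]
      refine le_trans (le_of_eq ?_) (h x hx)
      rw [← lintegral_indicator measurableSet_Icc]
      refine lintegral_congr fun v => ?_
      have h3 : Complex.measurableEquivRealProd.symm (x, v) = (x : ℂ) + (v : ℂ) * Complex.I := by
        apply Complex.ext <;> simp [Complex.measurableEquivRealProd_symm_apply]
      rw [h3]
      by_cases hv : v ∈ Set.Icc (T / 2) (4 * T)
      · rw [Set.indicator_of_mem hv, Set.indicator_of_mem]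
        refine ⟨?_, ?_⟩
        · simpa using hx
        · simpa using hv
      · rw [Set.indicator_of_notMem hv, Set.indicator_of_notMem]
        intro h4
        apply hv
        have := h4.2
        simpa using this
    · rw [Set.indicator_of_notMem hx]
      refine le_of_eq ?_
      rw [lintegral_eq_zero_of_ae_eq_zero]
      refine Eventually.of_forall fun v => ?_
      have h3 : Complex.measurableEquivRealProd.symm (x, v) = (x : ℂ) + (v : ℂ) * Complex.I := by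
        apply Complex.ext <;> simp [Complex.measurableEquivRealProd_symm_apply]
      simp only [h3, Pi.zero_apply]
      rw [Set.indicator_of_notMem]
      intro h4
      apply hx
      have := h4.1
      simpa using this
  refine (lintegral_mono h2).trans ?_
  rw [lintegral_indicator measurableSet_Icc, setLIntegral_const, Real.volume_Icc]
  calc M * ENNReal.ofReal (1 / 2 + 1 / 16 - (1 / 2 + δ / 2)) ≤ M * ENNReal.ofReal 1 := by
        gcongr
        linarith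
    _ = M := by rw [ENNReal.ofReal_one, mul_one]

end Pool.Agent.Y884.OM
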